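import Pool.Agent.H.MP_fc7dfc_gt.Main

namespace Pool.Agent.Results.MP_fc7dfc_gt.Yes

open Finset InnerProductGeometry
open scoped RealInnerProductSpace

abbrev Eu (n : ℕ) := EuclideanSpace ℝ (Fin n)

def cone {ι W : Type} [AddCommGroup W] [Module ℝ W] (v : ι → W) (t : Finset ι) : Set W :=
  {y | ∃ β : ι → ℝ, (∀ i, 0 ≤ β i) ∧ y = ∑ i ∈ t, β i • v i}

noncomputable def lor {d : ℕ} (p q : ℝ × Eu d) : ℝ := p.1 * q.1 - ⟪p.2, q.2⟫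

def Hyp (d : ℕ) : Set (ℝ × Eu d) := {p | 0 < p.1 ∧ lor p p = 1}

noncomputable def hdist {d : ℕ} (p q : ℝ × Eu d) : ℝ := Real.arcosh (lor p q)

theorem result (d k : ℕ) (hk : k < d) (R ρ : ℝ) (h0 : 0 < R) :
    (R < Real.pi / 2 → ∀ (c x : Eu (d + 1)) (v : Fin (d + 1) → Eu (d + 1)),
      ‖c‖ = 1 → ‖x‖ = 1 → (∀ i, ‖v i‖ = 1) → LinearIndependent ℝ v → (∀ i, angle c (v i) ≤ R) →
      x ∈ cone v univ →
      (∀ t : Finset (Fin (d + 1)), t.card = k + 1 → ∀ y ∈ cone v t, ‖y‖ = 1 → ρ ≤ angle x y) →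
      ρ ≤ Real.arctan (√(((d : ℝ) - k) / (d * (k + 1))) * Real.tan R)) ∧
    (∀ (c x : ℝ × Eu d) (v : Fin (d + 1) → ℝ × Eu d),
      c ∈ Hyp d → x ∈ Hyp d → (∀ i, v i ∈ Hyp d) → LinearIndependent ℝ v →
      (∀ i, hdist c (v i) ≤ R) → x ∈ cone v univ →
      (∀ t : Finset (Fin (d + 1)), t.card = k + 1 → ∀ y ∈ cone v t, y ∈ Hyp d → ρ ≤ hdist x y) →
      ρ ≤ Real.artanh (√(((d : ℝ) - k) / (d * (k + 1))) * Real.tanh R)) :=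
  ⟨fun h1 c x v hc hx hv hl hR hS h =>
      Pool.Agent.H.MP_fc7dfc_gt.sph d k hk R h0 h1 c hc v hv hR hl x hx hS ρ h,
    fun c x v hc hx hv hl hR hS h =>
      Pool.Agent.H.MP_fc7dfc_gt.hyp d k hk R h0 c hc v hv hR hl x hx hS ρ h⟩

end Pool.Agent.Results.MP_fc7dfc_gt.Yes
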